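import Mathlib

/-!
# An f-noetherian completely regular semigroup which is not finitely generated

If a semigroup is generated by a finite set under multiplication and inversion in subgroups, then
it is f-noetherian: in an action on a finite set the inverse of `t` acts as a power of `t`, so
finitely many pairs suffice.  The semigroup `Sg` is the union of the group `ℤ` and of the Rees
matrix semigroup over the free abelian group on `ℤ` with index sets `ℤ`, `ℤ` and sandwich matrix
`p j i = e_(j + i)`.  It is generated in this sense by two elements, but it is not finitely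
generated as a semigroup.
-/

namespace Pool.Agent.Results.MP_f4ff42_al.NotFinitelyGenerated

universe u

/-! ### Definitions -/

/-- A right congruence on `S`: an equivalence relation `ρ` such that `ρ a b` implies
`ρ (a * s) (b * s)`. -/
structure RightCongruence (S : Type u) [Semigroup S] where
  /-- the relation -/
  rel : Setoid S
  mul_right : ∀ a b s : S, rel a b → rel (a * s) (b * s)

/-- `ρ` is the smallest right congruence which contains the pairs in `X`. -/
def IsGeneratedBy {S : Type u} [Semigroup S] (ρ : RightCongruence S) (X : Set (S × S)) : Prop :=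
  (∀ x ∈ X, ρ.rel x.1 x.2) ∧
    ∀ σ : RightCongruence S, (∀ x ∈ X, σ.rel x.1 x.2) → ∀ a b, ρ.rel a b → σ.rel a b

/-- `S` is f-noetherian: every right congruence of finite index is finitely generated. -/
def FNoetherian (S : Type u) [Semigroup S] : Prop :=
  ∀ ρ : RightCongruence S, Finite (Quotient ρ.rel) →
    ∃ X : Set (S × S), X.Finite ∧ IsGeneratedBy ρ X

/-- The subsemigroup `H` of `S` is a group. -/
def IsSubgroup {S : Type u} [Semigroup S] (H : Subsemigroup S) : Prop :=
  ∃ e ∈ H, ∀ h ∈ H, e * h = h ∧ h * e = h ∧ ∃ h' ∈ H, h * h' = e ∧ h' * h = e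

/-- `S` is completely regular: every element lies in a subgroup of `S`. -/
def CompletelyRegular (S : Type u) [Semigroup S] : Prop :=
  ∀ a : S, ∃ H : Subsemigroup S, IsSubgroup H ∧ a ∈ H

/-- `S` is generated, as a semigroup, by a finite subset. -/
def FinitelyGenerated (S : Type u) [Semigroup S] : Prop :=
  ∃ A : Set S, A.Finite ∧ Subsemigroup.closure A = ⊤

/-! ### Powers -/

section pw

variable {S : Type u} [Semigroup S]

/-- `pw x n = x ^ (n + 1)` -/
def pw (x : S) : ℕ → S
  | 0 => x
  | n + 1 => pw x n * x

theorem pw_succ' (x : S) (n : ℕ) : pw x (n + 1) = x * pw x n := by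
  induction n with
  | zero => rfl
  | succ n ih => rw [pw, ih, mul_assoc, ← pw, ← ih]

theorem pw_mul_e {t e : S} (h : t * e = t) (n : ℕ) : pw t n * e = pw t n := by
  cases n with
  | zero => exact h
  | succ n => rw [pw, mul_assoc, h]

theorem pw_mul_pw {t g e : S} (hte : t * e = t) (htg : t * g = e) (n : ℕ) :
    pw t n * pw g n = e := by
  induction n with
  | zero => exact htg
  | succ n ih =>
    rw [pw, pw_succ' g, mul_assoc, ← mul_assoc t, htg, ← mul_assoc, pw_mul_e hte, ih]

theorem pw_mul_pw' {t g e : S} (hte : t * e = t) (htg : t * g = e) (i d : ℕ) :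
    pw t (i + 1 + d) * pw g i = pw t d := by
  induction i with
  | zero =>
    rw [Nat.add_comm, Nat.zero_add, pw, pw, mul_assoc, htg, pw_mul_e hte]
  | succ i ih =>
    have : i + 1 + 1 + d = i + 1 + d + 1 := by omega
    rw [this, pw, pw_succ' g, mul_assoc, ← mul_assoc t, htg, ← mul_assoc, pw_mul_e hte, ih]

end pw

/-! ### Semigroups generated by a finite set under multiplication and inversion -/

theorem fNoetherian_of {S : Type u} [Semigroup S] (A : Set S) (hA : A.Finite)
    (hgen : ∀ T : Subsemigroup S, A ⊆ T → (∀ t ∈ T, ∀ g e : S, t * g = e → g * t = e →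
      t * e = t → e * t = t → g * e = g → e * g = g → g ∈ T) → T = ⊤) :
    FNoetherian S := by
  classical
  intro ρ hfin
  let Q := Quotient ρ.rel
  let mk : S → Q := fun s => Quotient.mk _ s
  let act : Q → S → Q := fun q s =>
    Quotient.map (· * s) (fun a b h => ρ.mul_right a b s h) q
  have act_mk : ∀ x s, act (mk x) s = mk (x * s) := fun x s => rfl
  have act_mul : ∀ q s t, act q (s * t) = act (act q s) t := by
    intro q s t
    obtain ⟨x, rfl⟩ := Quotient.exists_rep q
    show mk (x * (s * t)) = mk (x * s * t)
    rw [mul_assoc]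
  let rep : Q → S := Quotient.out
  have mk_rep : ∀ q, mk (rep q) = q := fun q => Quotient.out_eq q
  let X : Set (S × S) := (fun x : Q × S => (rep x.1 * x.2, rep (act x.1 x.2))) ''
    ((Set.univ : Set Q) ×ˢ A) ∪ (fun a => (a, rep (mk a))) '' A
  refine ⟨X, ?_, ?_, ?_⟩
  · exact ((Set.finite_univ.prod hA).image _).union (hA.image _)
  · rintro x (⟨⟨q, a⟩, -, rfl⟩ | ⟨a, -, rfl⟩)
    · refine Quotient.exact ?_
      show mk (rep q * a) = mk (rep (act q a))
      rw [mk_rep, ← act_mk, mk_rep]
    · refine Quotient.exact ?_
      show mk a = mk (rep (mk a))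
      rw [mk_rep]
  · intro σ hσ
    -- the elements which behave well
    let P : S → Prop := fun t => (∀ q, σ.rel (rep q * t) (rep (act q t))) ∧ σ.rel t (rep (mk t))
    have hPmul : ∀ s t, P s → P t → P (s * t) := by
      intro s t hs ht
      refine ⟨fun q => ?_, ?_⟩
      · rw [← mul_assoc, act_mul]
        exact σ.rel.trans (σ.mul_right _ _ t (hs.1 q)) (ht.1 _)
      · have h1 := σ.mul_right _ _ t hs.2
        have h2 := ht.1 (mk s)
        rw [act_mk] at h2
        exact σ.rel.trans h1 h2
    let T : Subsemigroup S := ⟨{t | P t}, fun {s t} hs ht => hPmul s t hs ht⟩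
    have hT : T = ⊤ := by
      refine hgen T ?_ ?_
      · intro a ha
        exact ⟨fun q => hσ _ (Or.inl ⟨(q, a), ⟨Set.mem_univ _, ha⟩, rfl⟩),
          hσ _ (Or.inr ⟨a, ha, rfl⟩)⟩
      · intro t ht g e htg hgt hte het hge heg
        have htP : P t := ht
        have hpow : ∀ n, P (pw t n) := by
          intro n
          induction n with
          | zero => exact htP
          | succ n ih => exact hPmul _ _ ih htP
        -- some power of `t` acts as `e`
        obtain ⟨n, hn1, hn⟩ : ∃ n, 1 ≤ n ∧ ∀ q, act q (pw t n) = act q e := by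
          have key : ∀ i j : ℕ, i < j → (∀ q, act q (pw t (2 * i)) = act q (pw t (2 * j))) →
              ∃ n, 1 ≤ n ∧ ∀ q, act q (pw t n) = act q e := by
            intro i j hij h
            refine ⟨2 * j - 2 * i - 1, by omega, fun q => ?_⟩
            have h1 := congrArg (fun q => act q (pw g (2 * i))) (h q)
            simp only [← act_mul] at h1
            rw [pw_mul_pw hte htg] at h1
            have h2 : 2 * j = 2 * i + 1 + (2 * j - 2 * i - 1) := by omega
            rw [h2, pw_mul_pw' hte htg] at h1
            exact h1.symm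
          obtain ⟨i, j, hij, h⟩ := Finite.exists_ne_map_eq_of_infinite
            (fun (k : ℕ) (q : Q) => act q (pw t (2 * k)))
          rcases lt_or_gt_of_ne hij with hlt | hlt
          · exact key i j hlt fun q => congrFun h q
          · exact key j i hlt fun q => (congrFun h q).symm
        obtain ⟨n, rfl⟩ : ∃ k, n = k + 1 := ⟨n - 1, by omega⟩
        -- `g` behaves well at the points `act q e`
        have hact_g : ∀ q, act q (pw t n) = act q g := by
          intro q
          have h1 := hn (act q g)
          rw [← act_mul, ← act_mul, hge, pw_succ' t n, ← mul_assoc, hgt] at h1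
          have h2 : e * pw t n = pw t n := by
            cases n with
            | zero => exact het
            | succ n => rw [pw_succ', ← mul_assoc, het]
          rw [h2] at h1
          exact h1
        have hee : e * e = e := by
          nth_rewrite 1 [← htg]
          rw [mul_assoc, hge, htg]
        have hg1 : ∀ q, σ.rel (rep (act q e) * g) (rep (act (act q e) g)) := by
          intro q
          have h1 := (hpow (n + 1)).1 (act q e)
          rw [hn, ← act_mul q e e, hee] at h1
          have h2 := σ.mul_right _ _ g h1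
          rw [mul_assoc, pw, mul_assoc (pw t n), htg, pw_mul_e hte] at h2
          have h3 := (hpow n).1 (act q e)
          rw [hact_g] at h3
          exact σ.rel.trans (σ.rel.symm h2) h3
        have hgm : ∀ m q, σ.rel (rep (act q e) * pw g m) (rep (act (act q e) (pw g m))) := by
          intro m
          induction m with
          | zero => exact hg1
          | succ m ih =>
            intro q
            have h1 := σ.mul_right _ _ g (ih q)
            have h2 := hg1 (act (act q e) (pw g m))
            rw [← act_mul _ (pw g m) e, pw_mul_e hge] at h2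
            rw [pw, ← mul_assoc, act_mul _ (pw g m) g]
            exact σ.rel.trans h1 h2
        have hfac : g = pw t (n + 1) * pw g (n + 2) := by
          show g = pw t (n + 1) * (pw g (n + 1) * g)
          rw [← mul_assoc, pw_mul_pw hte htg, heg]
        have hgP : P g := by
          refine ⟨fun q => ?_, ?_⟩
          · have h1 := σ.mul_right _ _ (pw g (n + 2)) ((hpow (n + 1)).1 q)
            have h2 := hgm (n + 2) q
            rw [mul_assoc, ← hfac] at h1
            rw [← hn q, ← act_mul, ← hfac] at h2
            exact σ.rel.trans h1 h2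
          · have h1 := σ.mul_right _ _ (pw g (n + 2)) (hpow (n + 1)).2
            rw [← hfac] at h1
            have h2 := hgm (n + 2) (mk (pw t (n + 1)))
            rw [act_mk _ e, pw_mul_e hte, act_mk, ← hfac] at h2
            exact σ.rel.trans h1 h2
        exact hgP
    intro a b hab
    have ha : P a := by
      have : a ∈ T := hT ▸ Subsemigroup.mem_top a
      exact this
    have hb : P b := by
      have : b ∈ T := hT ▸ Subsemigroup.mem_top b
      exact this
    have hmk : mk a = mk b := Quotient.sound hab
    have h1 := ha.2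
    rw [hmk] at h1
    exact σ.rel.trans h1 (σ.rel.symm hb.2)

/-! ### The example -/

/-- The union of the group `ℤ` and of the Rees matrix semigroup over the free abelian group on `ℤ`
with index sets `ℤ`, `ℤ` and sandwich matrix `p j i = e_(j + i)`. -/
inductive Sg : Type where
  | u : ℤ → Sg
  | k : ℤ → (ℤ →₀ ℤ) → ℤ → Sg

namespace Sg

/-- the entries of the sandwich matrix -/
noncomputable def p (n : ℤ) : ℤ →₀ ℤ := Finsupp.single n 1

noncomputable instance : Mul Sg where
  mul x y := match x, y with
    | .u m, .u n => .u (m + n)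
    | .u m, .k i g j => .k (m + i) g j
    | .k i g j, .u n => .k i g (j + n)
    | .k i g j, .k i' g' j' => .k i (g + p (j + i') + g') j'

theorem u_mul_u (m n : ℤ) : u m * u n = u (m + n) := rfl
theorem u_mul_k (m i : ℤ) (g) (j : ℤ) : u m * k i g j = k (m + i) g j := rfl
theorem k_mul_u (i : ℤ) (g) (j n : ℤ) : k i g j * u n = k i g (j + n) := rfl
theorem k_mul_k (i : ℤ) (g) (j i' : ℤ) (g') (j' : ℤ) :
    k i g j * k i' g' j' = k i (g + p (j + i') + g') j' := rfl

noncomputable instance : Semigroup Sg where
  mul_assoc x y z := by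
    cases x <;> cases y <;> cases z <;>
      simp only [u_mul_u, u_mul_k, k_mul_u, k_mul_k, add_assoc]

/-- the subgroup `ℤ` -/
noncomputable def HU : Subsemigroup Sg where
  carrier := {x | ∃ n, x = u n}
  mul_mem' := by
    rintro _ _ ⟨m, rfl⟩ ⟨n, rfl⟩
    exact ⟨m + n, rfl⟩

/-- the subgroups of the Rees matrix semigroup -/
noncomputable def HK (i j : ℤ) : Subsemigroup Sg where
  carrier := {x | ∃ g, x = k i g j}
  mul_mem' := by
    rintro _ _ ⟨g, rfl⟩ ⟨h, rfl⟩
    exact ⟨_, k_mul_k _ _ _ _ _ _⟩

theorem completelyRegular : CompletelyRegular Sg := by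
  intro a
  cases a with
  | u n =>
    refine ⟨HU, ⟨u 0, ⟨0, rfl⟩, ?_⟩, ⟨n, rfl⟩⟩
    rintro _ ⟨m, rfl⟩
    exact ⟨by rw [u_mul_u, zero_add], by rw [u_mul_u, add_zero],
      u (-m), ⟨-m, rfl⟩, by rw [u_mul_u, add_neg_cancel], by rw [u_mul_u, neg_add_cancel]⟩
  | k i g j =>
    refine ⟨HK i j, ⟨k i (-p (j + i)) j, ⟨_, rfl⟩, ?_⟩, ⟨g, rfl⟩⟩
    rintro _ ⟨h, rfl⟩
    refine ⟨by rw [k_mul_k, neg_add_cancel, zero_add], by rw [k_mul_k]; congr 1; abel,
      k i (-h - p (j + i) - p (j + i)) j, ⟨_, rfl⟩, ?_, ?_⟩
    · rw [k_mul_k]; congr 1; abel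
    · rw [k_mul_k]; congr 1; abel

theorem fNoetherian : FNoetherian Sg := by
  refine fNoetherian_of {u 1, k 0 0 0} (Set.toFinite _) ?_
  intro T hAT hinv
  have hu1 : u 1 ∈ T := hAT (Or.inl rfl)
  have hk0 : k 0 0 0 ∈ T := hAT (Or.inr rfl)
  -- the group `ℤ` is in `T`
  have hum1 : u (-1) ∈ T := by
    refine hinv (u 1) hu1 (u (-1)) (u 0) ?_ ?_ ?_ ?_ ?_ ?_ <;> (rw [u_mul_u]; norm_num)
  have hu0 : u 0 ∈ T := by
    have := T.mul_mem hu1 hum1
    rwa [u_mul_u, show (1 : ℤ) + -1 = 0 by norm_num] at this
  have hu : ∀ n : ℤ, u n ∈ T := by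
    intro n
    induction n using Int.induction_on with
    | zero => exact hu0
    | succ i ih =>
      have := T.mul_mem ih hu1
      rwa [u_mul_u] at this
    | pred i ih =>
      have := T.mul_mem ih hum1
      rwa [u_mul_u] at this
  -- the subgroup with indices `0, 0`
  have hmul : ∀ g h, k 0 g 0 ∈ T → k 0 h 0 ∈ T → k 0 (g + p 0 + h) 0 ∈ T := by
    intro g h hg hh
    have := T.mul_mem hg hh
    rwa [k_mul_k, add_zero] at this
  have hneg : ∀ g, k 0 g 0 ∈ T → k 0 (-g - p 0 - p 0) 0 ∈ T := by
    intro g hg
    refine hinv (k 0 g 0) hg _ (k 0 (-p 0) 0) ?_ ?_ ?_ ?_ ?_ ?_ <;>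
      (rw [k_mul_k, add_zero]; congr 1; abel)
  have hid : k 0 (-p 0) 0 ∈ T := by
    have := hmul _ _ hk0 (hneg _ hk0)
    have e : (0 : ℤ →₀ ℤ) + p 0 + (-0 - p 0 - p 0) = -p 0 := by abel
    rwa [e] at this
  have hsing : ∀ n, k 0 (p n) 0 ∈ T := by
    intro n
    have := T.mul_mem (T.mul_mem hk0 (hu n)) hk0
    rw [k_mul_u, k_mul_k] at this
    simpa using this
  let C : AddSubgroup (ℤ →₀ ℤ) :=
    { carrier := {x | k 0 (x - p 0) 0 ∈ T}
      zero_mem' := by
        show k 0 (0 - p 0) 0 ∈ T
        rwa [zero_sub]
      add_mem' := by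
        intro x y hx hy
        have := hmul _ _ hx hy
        show k 0 (x + y - p 0) 0 ∈ T
        have e : x - p 0 + p 0 + (y - p 0) = x + y - p 0 := by abel
        rwa [e] at this
      neg_mem' := by
        intro x hx
        have := hneg _ hx
        show k 0 (-x - p 0) 0 ∈ T
        have e : -(x - p 0) - p 0 - p 0 = -x - p 0 := by abel
        rwa [e] at this }
  have hC0 : p 0 ∈ C := by
    show k 0 (p 0 - p 0) 0 ∈ T
    rwa [sub_self]
  have hCp : ∀ n, p n ∈ C := by
    intro n
    have h1 : p n + p 0 ∈ C := by
      show k 0 (p n + p 0 - p 0) 0 ∈ T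
      rw [add_sub_cancel_right]
      exact hsing n
    have := C.sub_mem h1 hC0
    rwa [add_sub_cancel_right] at this
  have hC : ∀ x, x ∈ C := by
    intro x
    induction x using Finsupp.induction_linear with
    | zero => exact C.zero_mem
    | add f g hf hg => exact C.add_mem hf hg
    | single a b =>
      have := C.zsmul_mem (hCp a) b
      rwa [p, Finsupp.smul_single, smul_eq_mul, mul_one] at this
  have hk : ∀ g, k 0 g 0 ∈ T := by
    intro g
    have : k 0 (g + p 0 - p 0) 0 ∈ T := hC (g + p 0)
    rwa [add_sub_cancel_right] at this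
  rw [eq_top_iff]
  intro x _
  cases x with
  | u n => exact hu n
  | k i g j =>
    have := T.mul_mem (T.mul_mem (hu i) (hk g)) (hu j)
    rwa [u_mul_k, k_mul_u, add_zero, zero_add] at this

theorem not_fg : ¬ FinitelyGenerated Sg := by
  classical
  rintro ⟨A, hA, hgen⟩
  -- a letter `N` which does not occur in the elements of `A`
  let sup : Sg → Set ℤ := fun x => match x with
    | .u _ => ∅
    | .k _ g _ => (g.support : Set ℤ)
  have hfin : (⋃ x ∈ A, sup x).Finite := by
    refine hA.biUnion fun x _ => ?_
    cases x with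
    | u n => exact Set.finite_empty
    | k i g j => exact g.support.finite_toSet
  obtain ⟨N, hN⟩ := hfin.exists_notMem
  let T : Subsemigroup Sg :=
    { carrier := {x | ∀ i g j, x = k i g j → 0 ≤ g N}
      mul_mem' := by
        intro x y hx hy i g j h
        cases x with
        | u m =>
          cases y with
          | u n => rw [u_mul_u] at h; cases h
          | k i' g' j' =>
            rw [u_mul_k] at h
            cases h
            exact hy _ _ _ rfl
        | k i1 g1 j1 =>
          cases y with
          | u n =>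
            rw [k_mul_u] at h
            cases h
            exact hx _ _ _ rfl
          | k i' g' j' =>
            rw [k_mul_k] at h
            cases h
            have h1 := hx _ _ _ rfl
            have h2 := hy _ _ _ rfl
            have h3 : 0 ≤ p (j1 + i') N := by
              rw [p, Finsupp.single_apply]
              split_ifs <;> norm_num
            rw [Finsupp.add_apply, Finsupp.add_apply]
            omega }
  have hAT : A ⊆ T := by
    intro x hx i g j h
    subst h
    have h1 : N ∉ (g.support : Set ℤ) := fun h => hN (Set.mem_biUnion hx h)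
    have h2 : g N = 0 := by simpa using h1
    exact h2.ge
  have h1 : Subsemigroup.closure A ≤ T := Subsemigroup.closure_le.2 hAT
  rw [hgen] at h1
  have h2 : k 0 (-p N) 0 ∈ T := h1 (Subsemigroup.mem_top _)
  have h3 := h2 _ _ _ rfl
  rw [Finsupp.neg_apply, p, Finsupp.single_eq_same] at h3
  norm_num at h3

end Sg

/-- **Answer to Q1 (no).**  There is a completely regular semigroup which is f-noetherian but not
finitely generated. -/
theorem result : ∃ (S : Type) (_ : Semigroup S),
    CompletelyRegular S ∧ FNoetherian S ∧ ¬ FinitelyGenerated S :=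
  ⟨Sg, inferInstance, Sg.completelyRegular, Sg.fNoetherian, Sg.not_fg⟩

end Pool.Agent.Results.MP_f4ff42_al.NotFinitelyGenerated
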